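import Pool.Agent.helper52.FS.SpecP

/-!
# Row `fs:LSP` (MP_07c750, project FS): the fractal Logvinenko–Sereda theorem
-/

open MeasureTheory Set

set_option autoImplicit false

namespace Pool.Agent.FS

theorem LSP_ee (s : ℝ) (k : ℤ) : ee (s + 2 * Real.pi * k) = ee s := by
  unfold ee
  have e : (((s + 2 * Real.pi * k : ℝ) : ℂ)) * Complex.I = (s : ℂ) * Complex.I + k * (2 * Real.pi * Complex.I) := by
    push_cast
    ring
  rw [e, Complex.exp_add, Complex.exp_int_mul_two_pi_mul_I, mul_one]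

theorem LSP_per (P : ℕ) (hP : 1 ≤ P) (S : Finset ℤ) (a : ℤ → ℂ) (y : ℝ) : GP P S a (y + P) = GP P S a y := by
  unfold GP
  have hP0 : (P : ℝ) ≠ 0 := by
    have : (0 : ℝ) < P := by exact_mod_cast hP
    exact this.ne'
  refine Finset.sum_congr rfl fun k _ => ?_
  have e : 2 * Real.pi * (k : ℝ) / P * (y + P) = 2 * Real.pi * k / P * y + 2 * Real.pi * k := by
    field_simp
  rw [e, LSP_ee]

theorem LSP_cont (P : ℕ) (S : Finset ℤ) (a : ℤ → ℂ) : Continuous (GP P S a) := by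
  unfold GP ee
  fun_prop

theorem LSP_proof (hLSO : LSO_stmt) (hSUP : SUP_stmt) : LSP_stmt := by
  intro c R2 hc hc1 hR2
  obtain ⟨C, hC1, hC⟩ := hSUP
  have hC0 : 0 < C := by linarith
  obtain ⟨K, R1, hK, hR, h⟩ := hLSO c R2 (1 / (2 * C)) hc hc1 hR2 (by positivity)
  refine ⟨2 * C * K, R1, by nlinarith, hR, ?_⟩
  intro P S a E hP hE hEp hx hgap
  choose x hx1 hx2 hx3 using hx
  obtain ⟨h1, h2, h3⟩ := hC c P (fun y => ‖GP P S a y‖ ^ 2) E (fun m => x (m : ℤ)) hc hc1 hP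
    ((LSP_cont P S a).norm.pow 2) (fun y => by positivity) (fun y => by rw [LSP_per P hP]) hE hEp
    (fun m _ => ⟨by exact_mod_cast hx1 m, by exact_mod_cast hx2 m, hx3 m⟩)
  have h4 := Finset.sum_le_sum (fun m (_ : m ∈ Finset.range P) => h P S a (x (m : ℤ)) hP hgap)
  rw [Finset.sum_add_distrib, ← Finset.mul_sum, ← Finset.mul_sum] at h4
  have h5 : 1 / (2 * C) * (C * ∫ y in Icc (0 : ℝ) P, ‖GP P S a y‖ ^ 2) = (∫ y in Icc (0 : ℝ) P, ‖GP P S a y‖ ^ 2) / 2 := by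
    field_simp
  have h6 := mul_le_mul_of_nonneg_left h2 (show (0 : ℝ) ≤ 1 / (2 * C) by positivity)
  have h7 := mul_le_mul_of_nonneg_left h3 (show (0 : ℝ) ≤ K by linarith)
  rw [h5] at h6
  have h8 : K * (C * ∫ y in E ∩ Icc (0 : ℝ) P, ‖GP P S a y‖ ^ 2) = C * K * ∫ y in E ∩ Icc (0 : ℝ) P, ‖GP P S a y‖ ^ 2 := by ring
  rw [h8] at h7
  linarith

end Pool.Agent.FS
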