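import Pool.Agent.helper78.FS.Spec

/-! # fs:NB4: the blobs and their neighbours -/

namespace Pool.Agent.helper78.FS

open Finset Real
open Classical

noncomputable section

theorem NB4_symm {r η : ℝ} {φ : E3 → E3} {v w : E3} (h : Adj r η φ v w) : Adj r η φ w v := by
  obtain ⟨hne, x, y, hx, hy, hvx, hwy, hd⟩ := h
  exact ⟨hne.symm, y, x, hy, hx, hwy, hvx, by rw [dist_comm]; exact hd⟩

theorem NB4_fin {M : ℕ} {A : Set E3} (h : ∀ S : Finset E3, (∀ w ∈ S, w ∈ A) → S.card ≤ M) :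
    ∃ F : Finset E3, F.card ≤ M ∧ ∀ v ∈ A, v ∈ F := by
  have hfin : A.Finite := by
    by_contra hinf
    obtain ⟨t, ht, htc⟩ := Set.Infinite.exists_subset_card_eq hinf (M + 1)
    have := h t (fun w hw => ht hw)
    omega
  refine ⟨hfin.toFinset, h _ (fun w hw => hfin.mem_toFinset.1 hw), fun v hv => hfin.mem_toFinset.2 hv⟩

theorem NB4 : NB4_stmt := by
  intro r c Q R φ η M hRep hM
  have hx : ∀ q : E3, ∃ x : E3, (∃ y : E3, ‖y‖ = r ∧ dist y q < R) → ‖x‖ = r ∧ dist x q < R := by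
    intro q
    by_cases h : ∃ y : E3, ‖y‖ = r ∧ dist y q < R
    · obtain ⟨y, hy⟩ := h
      exact ⟨y, fun _ => hy⟩
    · exact ⟨0, fun h' => absurd h' h⟩
  choose x hx using hx
  have hN : ∀ v : E3, ∃ F : Finset E3, F.card ≤ M ∧ ∀ w, Adj r η φ v w → w ∈ F := fun v =>
    NB4_fin (A := {w | Adj r η φ v w}) (fun S hS => hM v S hS)
  choose F hF hF' using hN
  set B0 : Finset E3 := Q.image (fun q => φ (x q)) with hB0
  have hblob : ∀ v, blob r Q R φ v → v ∈ B0 := by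
    rintro v ⟨y, hy, ⟨q, hq, hd⟩, rfl⟩
    obtain ⟨h1, h2⟩ := hx q ⟨y, hy, hd⟩
    refine Finset.mem_image.2 ⟨q, hq, ?_⟩
    rw [hRep.1]
    exact Or.inr ⟨h1, hy, Or.inl ⟨q, hq, h2, hd⟩⟩
  refine ⟨B0 ∪ B0.biUnion F, ?_, ?_, ?_⟩
  · have h1 : B0.card ≤ Q.card := Finset.card_image_le
    have h2 : (B0.biUnion F).card ≤ B0.card * M :=
      Finset.card_biUnion_le_card_mul _ _ _ (fun v _ => hF v)
    have h3 : B0.card * M ≤ Q.card * M := Nat.mul_le_mul_right M h1
    have h4 := Finset.card_union_le B0 (B0.biUnion F)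
    have h5 : Q.card * (M + 1) = Q.card + Q.card * M := by ring
    omega
  · intro v hv
    exact Finset.mem_union_left _ (hblob v hv)
  · intro v w hw hvw
    exact Finset.mem_union_right _ (Finset.mem_biUnion.2 ⟨w, hblob w hw, hF' w v (NB4_symm hvw)⟩)

end

end Pool.Agent.helper78.FS
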